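import Pool.Agent.Q250.Braid.LambdaMain
import Pool.Agent.Q250.Braid.Cube

set_option autoImplicit false

namespace Pool.Agent.Results.MP_260d59_co.DimensionDiameter

open Pool.Agent.Q250.Braid

variable {B : Type*}

/-- Type `Λ`: simply laced and triangle-free. -/
def IsTypeLambda (M : CoxeterMatrix B) : Prop :=
  (∀ s t : B, s ≠ t → M s t = 2 ∨ M s t = 3) ∧
    ¬ ∃ s t u : B, M s t = 3 ∧ M t u = 3 ∧ M s u = 3

/-- A braid move replaces a factor `s t s` by `t s t`, where `m(s,t) = 3`. -/
def BraidMove (M : CoxeterMatrix B) (β γ : List B) : Prop :=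
  ∃ (u v : List B) (s t : B), M s t = 3 ∧ β = u ++ [s, t, s] ++ v ∧ γ = u ++ [t, s, t] ++ v

/-- The braid class of a word. -/
def BraidClass (M : CoxeterMatrix B) (α : List B) : Type _ :=
  {β : List B // Relation.ReflTransGen (BraidMove M) α β}

/-- The braid graph of a word. -/
def braidGraph (M : CoxeterMatrix B) (α : List B) : SimpleGraph (BraidClass M α) where
  Adj β γ := BraidMove M β.1 γ.1
  symm := ⟨fun _ _ h => Br.symm (fun _ _ h => E3.symm h) h⟩
  loopless := ⟨fun _ h => Br.ne E3_irrefl h rfl⟩

/-- The hypercube `Q_n`: vectors adjacent iff they differ in exactly one coordinate. -/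
def hypercube (n : ℕ) : SimpleGraph (Fin n → Bool) where
  Adj x y := hammingDist x y = 1
  symm := ⟨fun x y h => by rw [hammingDist_comm]; exact h⟩
  loopless := ⟨fun x h => by rw [hammingDist_self] at h; omega⟩

/-- `G` embeds isometrically in `Q_n`. -/
def EmbedsIn {V : Type*} (G : SimpleGraph V) (n : ℕ) : Prop :=
  ∃ f : V → (Fin n → Bool), ∀ u v, (hypercube n).dist (f u) (f v) = G.dist u v

/-- The isometric dimension: the least `n` such that `G` embeds isometrically in `Q_n`. -/
noncomputable def isometricDimension {V : Type*} (G : SimpleGraph V) : ℕ :=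
  sInf {n | EmbedsIn G n}

lemma hypercube_dist {n : ℕ} (x y : Fin n → Bool) :
    (hypercube n).dist x y = hammingDist x y := by
  refine (dist_eq_of (G := hypercube n) Set.univ hammingDist (fun _ _ _ _ => trivial)
    (fun x _ => hammingDist_self x) ?_ ?_ (Set.mem_univ x) (Set.mem_univ y)).2
  · intro x _ y _ y' hadj
    have h1 : hammingDist y y' = 1 := hadj
    have h2 := hammingDist_triangle x y y'
    omega
  · intro x _ y _ hne
    obtain ⟨y', h1, h2⟩ := hamming_step x y hne
    exact ⟨y', h1, h2⟩

/-- **Main result.** In type `Λ`, the braid graph of a reduced expression is connected, embeds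
isometrically in some hypercube, and its isometric dimension equals its diameter. -/
theorem result {B W : Type*} [Group W] (M : CoxeterMatrix B) (cs : CoxeterSystem M W)
    (hM : IsTypeLambda M) (α : List B) (hα : cs.IsReduced α) :
    (braidGraph M α).Connected ∧ (∃ n, EmbedsIn (braidGraph M α) n) ∧
      isometricDimension (braidGraph M α) = (braidGraph M α).diam := by
  have hT : TriFree M := fun s t u h1 h2 h3 => hM.2 ⟨s, t, u, h1, h2, h3⟩
  have key : (braidGraph M α).Connected ∧
      ∃ (n : ℕ) (ψ : BraidClass M α → Fin n → Bool) (P Q : BraidClass M α),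
        (∀ β γ, hammingDist (ψ β) (ψ γ) = (braidGraph M α).dist β γ) ∧
        (braidGraph M α).dist P Q = n ∧
        {i | ∃ β : BraidClass M α, ShadowAt (E3 M) β.1 i}.ncard = n :=
    lambda_main hT hα (braidGraph M α) (fun _ _ => Iff.rfl)
  obtain ⟨hc, n, ψ, P, Q, h1, h2, h3⟩ := key
  have hemb : EmbedsIn (braidGraph M α) n := ⟨ψ, fun u v => by rw [hypercube_dist, h1]⟩
  have e1 : (braidGraph M α).diam = n := by
    refine diam_eq_of hc (fun u v => ?_) ⟨P, Q, h2⟩
    rw [← h1]
    refine (hammingDist_le_card_fintype).trans ?_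
    simp
  refine ⟨hc, ⟨n, hemb⟩, ?_⟩
  rw [e1]
  apply le_antisymm (Nat.sInf_le hemb)
  obtain ⟨f, hf⟩ := Nat.sInf_mem (s := {n | EmbedsIn (braidGraph M α) n}) ⟨n, hemb⟩
  have h4 := hf P Q
  rw [hypercube_dist, h2] at h4
  have h5 := hammingDist_le_card_fintype (x := f P) (y := f Q)
  rw [h4, Fintype.card_fin] at h5
  exact h5

end Pool.Agent.Results.MP_260d59_co.DimensionDiameter
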